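import Pool.Agent.Y962.BD.Main1
import Pool.Agent.Y962.BD.Dec1

/-!
# On the line the gradient field of stationary ballistic deposition need not decorrelate

There is a stationary law of ballistic deposition on `ℤ` seen from the origin, which has integrable
heights and is invariant under translations and under the reflection, and a bounded function `φ`
such that the average over `i, j < N` of the covariances of `φ (δg(x_i))` and `φ (δg(x_j))` is at
least `ε > 0` for ALL finite families `x_0, …, x_{N-1}` of sites; and for every `z` there are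
infinitely many `k` for which the covariance of `φ (δg(0))` and `φ (δg(k z))` is at least `ε`.
-/

namespace Pool.Agent.Results.MP_67d80e_pr.DimensionOne

open MeasureTheory Filter Topology ProbabilityTheory Pool.Agent.W833.BD Pool.Agent.Y962.BD

theorem result :
    ∃ (μ : Measure (Om 1)) (φ : (Fin 1 → ℤ) → ℝ) (ε : ℝ),
      IsProbabilityMeasure μ ∧ Stationary μ ∧ (∀ᵐ g ∂μ, g 0 = 0) ∧
      (∀ x : V 1, Integrable (fun g : Om 1 => (g x : ℝ)) μ) ∧
      (∀ z : V 1, μ.map (fun g y => g (y + z) - g z) = μ) ∧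
      (∀ s : ℤˣ, μ.map (fun g y => g (fun i => (s : ℤ) * y i)) = μ) ∧
      (∃ C, ∀ v, |φ v| ≤ C) ∧ 0 < ε ∧
      (∀ (x : ℕ → V 1) (N : ℕ), ε * (N : ℝ) ^ 2 ≤ ∑ i ∈ Finset.range N, ∑ j ∈ Finset.range N,
        cov[fun g => φ (grad g (x i)), fun g => φ (grad g (x j)); μ]) ∧
      ∀ z : V 1, ∃ k : ℕ → ℕ, StrictMono k ∧ ∀ n,
        ε ≤ cov[fun g => φ (grad g 0), fun g => φ (grad g (k n • z)); μ] := by
  obtain ⟨ν, a, hν, ha, hmean⟩ := exists_nice1
  obtain ⟨R, ε, hε, h1, h2⟩ := cov_avg hν ha hmean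
  have hμ := hν.symm
  exact ⟨Pool.Agent.W833.BD.symm ν, phi R, ε, hμ.wstat.prob, hμ.wstat.stationary, hμ.wstat.zero,
    hμ.int, hμ.trans, fun s => symm_map ν (Equiv.refl _) (fun _ => s), ⟨R, abs_phi_le R⟩, hε,
    h1, h2⟩

end Pool.Agent.Results.MP_67d80e_pr.DimensionOne
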