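import Pool.Agent.Y155.BD.Pos

set_option autoImplicit false

/-!
# Ballistic deposition in high dimension: covariances bounded below along all families of sites

For every `d ≥ 100000` there is a stationary law of ballistic deposition on `ℤ^d` seen from the
origin, with integrable heights and all the symmetries of the lattice, and a bounded `φ` such that
the covariance matrix of `φ (δg(x i))`, for any finite family of sites, is at least `ε` times the
all-ones matrix; and along every direction `z` the set of `k` with covariance at least `ε` has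
positive lower density.

`V d`, `Om d` = sites, height functions; `grad`, `Stationary` are in `Pool/Agent/W833/BD`.
-/

namespace Pool.Agent.Results.MP_67d80e_pr.PositiveOnAverage

open MeasureTheory Filter Topology ProbabilityTheory Pool.Agent.W833.BD Pool.Agent.Y155.BD

theorem result : ∀ d : ℕ, 100000 ≤ d →
    ∃ (μ : Measure (Om d)) (φ : (Fin d → ℤ) → ℝ) (ε : ℝ),
      IsProbabilityMeasure μ ∧ Stationary μ ∧ (∀ᵐ g ∂μ, g 0 = 0) ∧
      (∀ x : V d, Integrable (fun g : Om d => (g x : ℝ)) μ) ∧
      (∀ z : V d, μ.map (fun g y => g (y + z) - g z) = μ) ∧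
      (∀ (π : Equiv.Perm (Fin d)) (s : Fin d → ℤˣ),
        μ.map (fun g y => g (fun i => (s i : ℤ) * y (π i))) = μ) ∧
      (∃ C, ∀ v, |φ v| ≤ C) ∧ 0 < ε ∧
      (∀ (x : ℕ → V d) (w : ℕ → ℝ) (N : ℕ), ε * (∑ i ∈ Finset.range N, w i) ^ 2 ≤
        ∑ i ∈ Finset.range N, ∑ j ∈ Finset.range N, w i * w j *
          cov[fun g => φ (grad g (x i)), fun g => φ (grad g (x j)); μ]) ∧
      ∃ c : ℝ, 0 < c ∧ ∀ (z : V d) (N : ℕ), c * N ≤ Set.ncard {k : ℕ | k < N ∧
        ε ≤ cov[fun g => φ (grad g 0), fun g => φ (grad g (k • z)); μ]} := by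
  intro d hd
  have : NeZero d := ⟨by omega⟩
  obtain ⟨ν, a, hν, ha, hmean⟩ := exists_nice hd
  obtain ⟨R, ε, hε, h1, h2⟩ := not_decorrelated' hν ha hmean
  have hμ := hν.symm
  exact ⟨symm ν, phi R, ε, hμ.wstat.prob, hμ.wstat.stationary, hμ.wstat.zero, hμ.int, hμ.trans,
    fun π s => symm_map ν π s, ⟨R, abs_phi_le R⟩, hε, h1, h2⟩

end Pool.Agent.Results.MP_67d80e_pr.PositiveOnAverage
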